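import Pool.Agent.H99.PolyModDefs
import Pool.Agent.H99.Bouquet

open Filter Topology Metric

noncomputable section

namespace Pool.Agent.Results.MP_978236_an.Counter

open Pool.Agent.H99.PolyMod Pool.Agent.H99.UAlg

theorem weierstrass {E ι : Type} [NormedAddCommGroup E] [NormedSpace ℂ E] [ProperSpace E]
    {U : Set E} (hU : IsOpen U) {l : Filter ι} [l.NeBot] {F : ι → E → ℂ} {f : E → ℂ}
    (hF : ∀ i, DifferentiableOn ℂ (F i) U) (h : TendstoLocallyUniformlyOn F f l U) :
    DifferentiableOn ℂ f U := by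
  intro x hx
  obtain ⟨r, hr, hsub⟩ : ∃ r > 0, closedBall x (2 * r) ⊆ U := by
    obtain ⟨ε, hε, hb⟩ := Metric.isOpen_iff.1 hU x hx
    exact ⟨ε / 3, by positivity, (closedBall_subset_ball (by linarith)).trans hb⟩
  have hK : TendstoUniformlyOn F f l (closedBall x (2 * r)) :=
    (tendstoLocallyUniformlyOn_iff_tendstoUniformlyOn_of_compact (isCompact_closedBall _ _)).1
      (h.mono hsub)
  have hb : ∀ y ∈ ball x r, ball y r ⊆ closedBall x (2 * r) := fun y hy w hw => by
    rw [mem_closedBall]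
    linarith [dist_triangle w y x, mem_ball.1 hy, mem_ball.1 hw]
  have hd : ∀ i, ∀ y ∈ ball x r, DifferentiableAt ℂ (F i) y := fun i y hy =>
    (hF i).differentiableAt (hU.mem_nhds (hsub (hb y hy (mem_ball_self hr))))
  have hC : UniformCauchySeqOn (fun i y => fderiv ℂ (F i) y) l (ball x r) := by
    intro u hu
    obtain ⟨ε, hε, hεu⟩ := Metric.mem_uniformity_dist.1 hu
    have := hK.uniformCauchySeqOn _ (Metric.dist_mem_uniformity (show 0 < ε * r / 4 by positivity))
    filter_upwards [this] with m hm y hy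
    refine hεu ?_
    rw [dist_eq_norm, ← fderiv_sub (hd _ y hy) (hd _ y hy)]
    refine (Complex.norm_fderiv_le_div_of_mapsTo_ball (R₁ := r) (R₂ := ε * r / 2)
      (((hF _).sub (hF _)).mono ((hb y hy).trans hsub)) (fun w hw => ?_) hr).trans_lt ?_
    · have h1 : dist (F m.1 w) (F m.2 w) < ε * r / 4 := hm w (hb y hy hw)
      have h2 : dist (F m.1 y) (F m.2 y) < ε * r / 4 := hm y (hb y hy (mem_ball_self hr))
      rw [dist_eq_norm] at h1 h2
      rw [mem_closedBall, dist_eq_norm]
      refine (norm_sub_le _ _).trans ?_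
      simp only [Pi.sub_apply]
      linarith
    · rw [div_lt_iff₀ hr]; nlinarith
  choose! g hg using fun y (hy : y ∈ ball x r) => CompleteSpace.complete (hC.cauchy_map hy)
  have := hasFDerivAt_of_tendstoLocallyUniformlyOn (f := F) (g := f) isOpen_ball
    (hC.tendstoUniformlyOn_of_tendsto hg).tendstoLocallyUniformlyOn
    (fun i y hy => (hd i y hy).hasFDerivAt)
    (fun y hy => hK.tendsto_at (hb y hy (mem_ball_self hr))) (mem_ball_self hr)
  exact this.differentiableAt.differentiableWithinAt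

theorem hol_closed {n : ℕ} {U : Set (Fin n → ℂ)} (hU : IsOpen U) :
    IsClosed (Hol U : Set C(U, ℂ)) := by
  have := hU.locallyCompactSpace
  refine isClosed_of_closure_subset fun f hf => ?_
  have hne : (comap ((↑) : Hol U → C(U, ℂ)) (𝓝 f)).NeBot := mem_closure_iff_comap_neBot.1 hf
  choose g hg hg' using fun i : Hol U => i.2
  refine ⟨Function.extend Subtype.val f 0, weierstrass hU hg
    (l := comap ((↑) : Hol U → C(U, ℂ)) (𝓝 f)) ?_, fun z =>
      (Subtype.val_injective.extend_apply _ _ z).symm⟩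
  rw [tendstoLocallyUniformlyOn_iff_tendstoLocallyUniformly_comp_coe]
  have h1 := ContinuousMap.tendsto_iff_tendstoLocallyUniformly.1
    (tendsto_comap (f := ((↑) : Hol U → C(U, ℂ))) (x := 𝓝 f))
  convert h1 using 2
  · funext z; exact (hg' _ z).symm
  · funext z; exact Subtype.val_injective.extend_apply _ _ z

abbrev Dk : Type := closedBall (0 : ℂ) 1

def DH : C(ℝ × Dk, Dk) := ⟨fun p => ⟨(cc p.1 : ℂ) * p.2.1, by
      rw [mem_closedBall_zero_iff, norm_mul]
      exact mul_le_one₀ (cc_norm _) (norm_nonneg _) (mem_closedBall_zero_iff.1 p.2.2)⟩,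
    by
      refine Continuous.subtype_mk ?_ _
      exact (Complex.continuous_ofReal.comp (cc_cont.comp continuous_fst)).mul
        (continuous_subtype_val.comp continuous_snd)⟩

theorem log_disk (f : C(Dk, ℂ)) (hf : ∀ w, f w ≠ 0) :
    ∃ h : C(Dk, ℂ), ∀ w, f w = Complex.exp (h w) := by
  have hc : IsClosed ((⊤ : Subalgebra ℂ C(Dk, ℂ)) : Set C(Dk, ℂ)) := by simp
  obtain ⟨h, -, hh⟩ := exps_of hc DH.curry DH.curry.continuous
    (fun _ _ _ => Algebra.mem_top) 0 1 ⟨0, mem_closedBall_self zero_le_one⟩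
    (fun s => Subtype.ext (show (cc 0 : ℂ) * s.1 = 0 by simp [cc]))
    (fun s => Subtype.ext (show (cc 1 : ℂ) * s.1 = s.1 by simp [cc])) f Algebra.mem_top
    ⟨⟨fun w => (f w)⁻¹, f.continuous.inv₀ hf⟩, Algebra.mem_top,
      ContinuousMap.ext fun w => mul_inv_cancel₀ (hf w)⟩
  exact ⟨h, hh⟩

theorem hopf (f g : C(Dk, ℂ)) (hf : ∀ w, f w ≠ 0) (hg : ∀ w, g w ≠ 0)
    (h : ∀ w : Dk, ‖(w : ℂ)‖ = 1 → g w = w * f w) : False := by
  obtain ⟨a, ha⟩ := log_disk f hf
  obtain ⟨b, hb⟩ := log_disk g hg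
  let e : ℝ → Dk := fun t => ⟨Complex.exp (t * Complex.I), by simp⟩
  have he : Continuous e := Continuous.subtype_mk (by fun_prop) _
  have key : ∀ t : ℝ, Complex.exp (b (e t) - a (e t)) = Complex.exp (t * Complex.I) := fun t => by
    rw [Complex.exp_sub, ← ha, ← hb, h _ (by simp [e]), mul_div_cancel_right₀ _ (hf _)]
  have := Complex.isCoveringMap_exp.eq_of_comp_eq
    (g₁ := fun t : ℝ => (b (e t) - a (e t)) - (b (e 0) - a (e 0)))
    (g₂ := fun t : ℝ => t * Complex.I) (by fun_prop) (by fun_prop) (by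
      funext t
      refine Subtype.ext ?_
      show Complex.exp _ = Complex.exp _
      rw [Complex.exp_sub, key, key]; simp) 0 (by simp)
  have h2 := congrFun this (2 * Real.pi)
  have h3 : e (2 * Real.pi) = e 0 := Subtype.ext (by simp [e])
  simp only [h3, sub_self] at h2
  simp [Real.pi_ne_zero] at h2

def q (z : Fin 3 → ℂ) : ℂ := z 0 ^ 2 + z 1 * z 2

def V : Set (Fin 3 → ℂ) := {z | q z ∈ Complex.slitPlane}

def U : Set (Fin 3 → ℂ) := connectedComponentIn V ![0, 1, 1]

theorem q_diff : Differentiable ℂ q := by unfold q; fun_prop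

theorem U_open : IsOpen U :=
  (Complex.isOpen_slitPlane.preimage q_diff.continuous).connectedComponentIn

theorem U_conn : IsConnected U := isConnected_connectedComponentIn_iff.2 (by simp [V, q])

theorem U_sub : U ⊆ V := connectedComponentIn_subset _ _

def rt (z : Fin 3 → ℂ) : ℂ := Complex.exp (-(Complex.log (q z) * 2⁻¹))

theorem rt_diff : DifferentiableOn ℂ rt U :=
  (((q_diff.differentiableOn.clog fun _ hz => U_sub hz).mul_const (2⁻¹ : ℂ)).neg).cexp

theorem rt_sq {z : Fin 3 → ℂ} (hz : z ∈ U) : rt z ^ 2 * q z = 1 := by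
  have h0 : q z ≠ 0 := Complex.slitPlane_ne_zero (U_sub hz)
  rw [rt, ← Complex.exp_nat_mul]
  have : ((2 : ℕ) : ℂ) * -(Complex.log (q z) * 2⁻¹) = -Complex.log (q z) := by push_cast; ring
  rw [this, Complex.exp_neg, Complex.exp_log h0, inv_mul_cancel₀ h0]

def co (i : Fin 3) : Hol U :=
  have hd : DifferentiableOn ℂ (fun z => rt z * z i) U := rt_diff.mul (by fun_prop)
  ⟨⟨fun z => rt z * z.1 i, hd.continuousOn.domRestrict⟩, _, hd, fun _ => rfl⟩

theorem co_apply (i : Fin 3) (z : U) : (co i : C(U, ℂ)) z = rt z * z.1 i := rfl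

theorem co_rel : co 0 ^ 2 + co 1 * co 2 = 1 := by
  refine Subtype.ext (ContinuousMap.ext fun z => ?_)
  have := rt_sq z.2
  simp only [q] at this
  show (rt z * z.1 0) ^ 2 + rt z * z.1 1 * (rt z * z.1 2) = 1
  linear_combination this

section gen

variable {R : Type} [CommRing R] [Algebra ℂ R]

def XM (a b c : R) : Submodule R (R × R) where
  carrier := {v | a * v.1 + b * v.2 = v.1 ∧ c * v.1 - a * v.2 = v.2}
  zero_mem' := by simp
  add_mem' := by
    rintro v w ⟨h1, h2⟩ ⟨h3, h4⟩
    exact ⟨by simp only [Prod.fst_add, Prod.snd_add]; linear_combination h1 + h3,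
      by simp only [Prod.fst_add, Prod.snd_add]; linear_combination h2 + h4⟩
  smul_mem' := by
    rintro c v ⟨h1, h2⟩
    exact ⟨by simp only [Prod.smul_fst, Prod.smul_snd, smul_eq_mul]; linear_combination c * h1,
      by simp only [Prod.smul_fst, Prod.smul_snd, smul_eq_mul]; linear_combination c * h2⟩

variable {a b c : R}

def v1 (h : a ^ 2 + b * c = 1) : XM a b c := ⟨(1 + a, c), by linear_combination h, by ring⟩

def v2 (h : a ^ 2 + b * c = 1) : XM a b c := ⟨(b, 1 - a), by ring, by linear_combination h⟩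

def hf : R := algebraMap ℂ _ 2⁻¹

theorem hf_two : (hf : R) * 2 = 1 := by
  rw [hf, show (2 : R) = algebraMap ℂ _ 2 from (map_ofNat _ 2).symm, ← map_mul]; simp

theorem decomp (h : a ^ 2 + b * c = 1) (v : XM a b c) :
    (hf * v.1.1) • v1 h + (hf * v.1.2) • v2 h = v := by
  obtain ⟨h1, h2⟩ := v.2
  refine Subtype.ext (Prod.ext ?_ ?_)
  · show hf * v.1.1 * (1 + a) + hf * v.1.2 * b = v.1.1
    linear_combination hf * h1 + v.1.1 * hf_two (R := R)
  · show hf * v.1.1 * c + hf * v.1.2 * (1 - a) = v.1.2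
    linear_combination hf * h2 + v.1.2 * hf_two (R := R)

theorem rank_one (v w : XM a b c) : v.1.1 * w.1.2 = v.1.2 * w.1.1 := by
  obtain ⟨h1, h2⟩ := v.2
  obtain ⟨h3, h4⟩ := w.2
  linear_combination hf * (-(w.1.2 * h1 - v.1.2 * h3) - (v.1.1 * h4 - w.1.1 * h2)) -
    (v.1.1 * w.1.2 - v.1.2 * w.1.1) * hf_two (R := R)

theorem swap1 (v w : XM a b c) : v.1.1 • w = w.1.1 • v :=
  Subtype.ext (Prod.ext (mul_comm _ _) ((rank_one v w).trans (mul_comm _ _)))

theorem swap2 (v w : XM a b c) : v.1.2 • w = w.1.2 • v :=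
  Subtype.ext (Prod.ext ((rank_one v w).symm.trans (mul_comm _ _)) (mul_comm _ _))

theorem projXM [UniformSpace R] [IsTopologicalRing R] (h : a ^ 2 + b * c = 1) :
    Projective R (XM a b c) := by
  intro Y _ _ _ _ hY φ ⟨ρ, hρ⟩
  have := hY.cont
  have := hY.poly.unif
  refine ⟨⟨⟨⟨fun v => (hf * v.1.1) • ρ (v1 h) + (hf * v.1.2) • ρ (v2 h), fun v w => ?_⟩,
    fun c v => ?_⟩, ?_⟩, fun v => ?_⟩
  · simp only [Submodule.coe_add, Prod.fst_add, Prod.snd_add, mul_add, add_smul]; abel
  · simp only [Submodule.coe_smul, Prod.smul_fst, Prod.smul_snd, smul_eq_mul, RingHom.id_apply,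
      smul_add, smul_smul, mul_left_comm c hf]
  · show Continuous fun v : XM a b c => (hf * v.1.1) • ρ (v1 h) + (hf * v.1.2) • ρ (v2 h)
    fun_prop
  · show φ ((hf * v.1.1) • ρ (v1 h) + (hf * v.1.2) • ρ (v2 h)) = v
    rw [map_add, map_smul, map_smul, hρ, hρ, decomp]

theorem polyXM [UniformSpace R] [IsTopologicalRing R] (hR : Polyn R) :
    PolyModule R (XM a b c) where
  poly :=
    { unif := by
        have := hR.unif
        exact isUniformEmbedding_subtype_val.isUniformInducing.isUniformAddGroup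
          (XM a b c).subtype
      complete := by
        have := hR.complete
        have := hR.t2
        have hc : IsClosed (XM a b c : Set (R × R)) :=
          (isClosed_eq (by fun_prop) (by fun_prop)).inter
            (isClosed_eq (by fun_prop) (by fun_prop))
        exact hc.completeSpace_coe
      t2 := by
        have := hR.t2
        infer_instance
      polynormable := by
        have := hR.polynormable
        have := hR.unif
        obtain ⟨P, h1⟩ : ∃ P : SeminormFamily ℂ R {p : Seminorm ℂ R // Continuous p},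
          WithSeminorms P := ⟨_, PolynormableSpace.withSeminorms ℂ R⟩
        have : PolynormableSpace ℂ (R × R) := by
          have h2 := withSeminorms_iInf (𝕜 := ℂ) (E := R × R) (ι := Bool)
            (t := fun i => cond i (TopologicalSpace.induced Prod.fst inferInstance)
              (TopologicalSpace.induced Prod.snd inferInstance))
            (p := fun i => cond i (SeminormFamily.comp P (LinearMap.fst ℂ R R))
              (SeminormFamily.comp P (LinearMap.snd ℂ R R)))
            (fun i => by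
              cases i
              · exact (LinearMap.snd ℂ R R).withSeminorms_induced h1
              · exact (LinearMap.fst ℂ R R).withSeminorms_induced h1)
          rw [iInf_bool_eq] at h2
          exact h2.toPolynormableSpace
        exact Topology.IsInducing.polynormableSpace
          (f := ((XM a b c).restrictScalars ℂ).subtype) IsInducing.subtypeVal }
  tower := inferInstance
  cont := inferInstance

abbrev XMg (a b c : R) : AddCommGroup (XM a b c) := inferInstance

end gen

abbrev X : Type := XM (R := Hol U) (co 0) (co 1) (co 2)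

instance : AddCommGroup X := XMg _ _ _

abbrev u1 : X := v1 co_rel

abbrev u2 : X := v2 co_rel

theorem unifC : IsUniformAddGroup C(U, ℂ) := by
  let T : C(U, ℂ) →+ UniformOnFun U ℂ {K | IsCompact K} :=
    { toFun := ContinuousMap.toUniformOnFunIsCompact
      map_zero' := rfl
      map_add' := fun _ _ => rfl }
  exact IsUniformInducing.isUniformAddGroup T
    ContinuousMap.isUniformEmbedding_toUniformOnFunIsCompact.isUniformInducing

instance : LocallyCompactSpace U := U_open.locallyCompactSpace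

open scoped ComplexOrder in
theorem polyHol : Polyn (Hol U) where
  unif := by
    have := unifC
    exact isUniformEmbedding_subtype_val.isUniformInducing.isUniformAddGroup (Hol U).val
  complete := (hol_closed U_open).completeSpace_coe
  t2 := inferInstance
  polynormable := by
    have : LocallyConvexSpace ℂ ℂ := .ofBasisZero ℂ ℂ (fun r : ℝ => ball 0 r) (fun r => 0 < r)
      nhds_basis_ball fun r _ => convex_of_nonneg_surjective_algebraMap _
        (fun _ => (RCLike.nonneg_iff_exists_ofReal (K := ℂ)).mp) (convex_ball (0 : ℂ) r)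
    exact Topology.IsInducing.polynormableSpace (f := (Hol U).val.toLinearMap)
      IsInducing.subtypeVal

def hem (ε : ℝ) (w : Dk) : Fin 3 → ℂ := ![((ε * √(1 - ‖(w : ℂ)‖ ^ 2) : ℝ) : ℂ), star w.1, w.1]

theorem hem_cont (ε : ℝ) : Continuous (hem ε) := by
  refine continuous_pi fun i => ?_
  fin_cases i <;> simp only [hem] <;> fun_prop

theorem q_hem {ε : ℝ} (hε : ε ^ 2 = 1) (w : Dk) : q (hem ε w) = 1 := by
  have hw : ‖(w : ℂ)‖ ≤ 1 := mem_closedBall_zero_iff.1 w.2
  have h1 : (ε * √(1 - ‖(w : ℂ)‖ ^ 2)) ^ 2 = 1 - ‖(w : ℂ)‖ ^ 2 := by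
    rw [mul_pow, hε, one_mul, Real.sq_sqrt (by nlinarith [norm_nonneg (w : ℂ)])]
  show ((ε * √(1 - ‖(w : ℂ)‖ ^ 2) : ℝ) : ℂ) ^ 2 + star w.1 * w.1 = 1
  rw [← Complex.ofReal_pow, h1, Complex.star_def, Complex.conj_mul']
  push_cast; ring

theorem hem_mem {ε : ℝ} (hε : ε ^ 2 = 1) (w : Dk) : hem ε w ∈ U := by
  have : PreconnectedSpace Dk := Subtype.preconnectedSpace (convex_closedBall _ _).isPreconnected
  refine (isPreconnected_range (hem_cont ε)).subset_connectedComponentIn
    ⟨⟨1, by simp⟩, by simp [hem]⟩ ?_ ⟨w, rfl⟩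
  rintro _ ⟨w, rfl⟩
  simp [V, q_hem hε]

def hemU (ε : ℝ) (hε : ε ^ 2 = 1) : C(Dk, U) :=
  ⟨fun w => ⟨hem ε w, hem_mem hε w⟩, (hem_cont ε).subtype_mk _⟩

theorem co_hem {ε : ℝ} (hε : ε ^ 2 = 1) (i : Fin 3) (w : Dk) :
    (co i : C(U, ℂ)) (hemU ε hε w) = hem ε w i := by
  rw [co_apply]
  show rt (hem ε w) * hem ε w i = _
  simp [rt, q_hem hε]

theorem no_section (s : X) (hs : ∀ z, (s.1.1 : C(U, ℂ)) z ≠ 0 ∨ (s.1.2 : C(U, ℂ)) z ≠ 0) :
    False := by
  have e1 : ∀ z, (co 0 : C(U, ℂ)) z * (s.1.1 : C(U, ℂ)) z +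
      (co 1 : C(U, ℂ)) z * (s.1.2 : C(U, ℂ)) z = (s.1.1 : C(U, ℂ)) z := fun z =>
    congrArg (fun f : Hol U => (f : C(U, ℂ)) z) s.2.1
  have e2 : ∀ z, (co 2 : C(U, ℂ)) z * (s.1.1 : C(U, ℂ)) z -
      (co 0 : C(U, ℂ)) z * (s.1.2 : C(U, ℂ)) z = (s.1.2 : C(U, ℂ)) z := fun z =>
    congrArg (fun f : Hol U => (f : C(U, ℂ)) z) s.2.2
  have hpos : ∀ w : Dk, ((1 + √(1 - ‖(w : ℂ)‖ ^ 2) : ℝ) : ℂ) ≠ 0 := fun w =>
    Complex.ofReal_ne_zero.2 (by positivity)
  refine hopf ((s.1.1 : C(U, ℂ)).comp (hemU 1 (by norm_num)))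
    ((s.1.2 : C(U, ℂ)).comp (hemU (-1) (by norm_num))) (fun w h0 => ?_) (fun w h0 => ?_)
    fun w hw => ?_
  · have h := e2 (hemU 1 (by norm_num) w)
    rw [co_hem, co_hem] at h
    refine (hs _).resolve_left (not_not.2 h0) ((mul_eq_zero.1 ?_).resolve_left (hpos w))
    simp only [ContinuousMap.comp_apply] at h0
    simp only [hem, h0, Matrix.cons_val_zero] at h
    push_cast at h ⊢
    linear_combination -h
  · have h := e1 (hemU (-1) (by norm_num) w)
    rw [co_hem, co_hem] at h
    refine (hs _).resolve_right (not_not.2 h0) ((mul_eq_zero.1 ?_).resolve_left (hpos w))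
    simp only [ContinuousMap.comp_apply] at h0
    simp only [hem, h0, Matrix.cons_val_zero] at h
    push_cast at h ⊢
    linear_combination -h
  · have h3 : hemU (-1) (by norm_num) w = hemU 1 (by norm_num) w :=
      Subtype.ext (by simp [hemU, hem, hw])
    have h := e2 (hemU 1 (by norm_num) w)
    rw [co_hem, co_hem] at h
    simp only [ContinuousMap.comp_apply, h3]
    rw [← h]
    simp [hem, hw]

theorem not_free : ¬ Free (R := Hol U) Subtype.val X := by
  rintro ⟨E, _, _, _, -, Φ, hemb, hr, -, hsm⟩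
  have h0 : ∀ z, Φ 0 z = 0 := fun z => by simpa using hsm 0 0 z
  obtain ⟨e, he⟩ : ∃ e : E, e ≠ 0 := by
    by_contra hn
    push Not at hn
    have hz : ∀ v : X, v = 0 := fun v =>
      hemb.injective (ContinuousMap.ext fun z => by rw [hn (Φ v z), hn (Φ 0 z)])
    have h1 : (1 + co 0 : Hol U) = 0 := congrArg (fun v : X => v.1.1) (hz u1)
    have h2 : (1 - co 0 : Hol U) = 0 := congrArg (fun v : X => v.1.2) (hz u2)
    have h3 : (1 : Hol U) = 0 := by linear_combination hf * (h1 + h2) - hf_two (R := Hol U)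
    obtain ⟨z, hz⟩ := U_conn.nonempty
    simpa using congrArg (fun f : Hol U => (f : C(U, ℂ)) ⟨z, hz⟩) h3
  obtain ⟨s, hs⟩ : ContinuousMap.const U e ∈ Set.range Φ := by
    rw [hr]
    exact fun l => ⟨algebraMap ℂ _ (l e), fun z => by simp⟩
  refine no_section s fun z => ?_
  by_contra hn
  push Not at hn
  have a1 := hsm u1.1.1 s z
  rw [swap1, hsm, hn.1, zero_smul, hs] at a1
  have a2 := hsm u2.1.2 s z
  rw [swap2, hsm, hn.2, zero_smul, hs] at a2
  have b1 : 1 + (co 0 : C(U, ℂ)) z = 0 := (smul_eq_zero.1 a1.symm).resolve_right he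
  have b2 : 1 - (co 0 : C(U, ℂ)) z = 0 := (smul_eq_zero.1 a2.symm).resolve_right he
  exact two_ne_zero (by linear_combination b1 + b2 : (2 : ℂ) = 0)

instance : IsTopologicalRing (Hol U) :=
  inferInstanceAs (IsTopologicalRing (Hol U).toSubring)

theorem result : ∃ (n : ℕ) (U : Set (Fin n → ℂ)),
    1 ≤ n ∧ IsOpen U ∧ IsConnected U ∧ HolProjNotFree U :=
  ⟨3, U, by norm_num, U_open, U_conn, X, inferInstance, inferInstance, inferInstance,
    inferInstance, polyXM polyHol, projXM co_rel, not_free⟩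

end Pool.Agent.Results.MP_978236_an.Counter
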